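import Pool.Agent.Run7.h696.CA.Iface

/-!
# Project CA (helper696): the piece JVVH

The joint relations vanish on the product of the torsors (generalises `p_JVV` of `Run7/h882/HQ/JV.lean`).
-/

set_option autoImplicit false

open PowerSeries Matrix

namespace Pool.Agent.Run7.h792.CA

open Pool.Agent.Run7.h696.CP Pool.Agent.Run7.h696.CA Pool.Agent.Y119.HZ

theorem p_JVVH : S_JVVH := by
  intro hSH hLZ hW hLIN m a N h T A hT hode hNL W z T₀ hT₀ y hy' x hx R hR
  obtain ⟨q, hqA, hq⟩ := hLZ m (Fin N) (Polynomial ℚ) W R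
  have h1 := hq ℚ⟦X⟧ (algebraMap (Polynomial ℚ) ℚ⟦X⟧) h (hy a) (hSH m a)
  rw [← MvPolynomial.aeval_def, hR] at h1
  have h2 := hLIN hW m a N h T A hT hode hNL q hqA h1.symm
  rw [hq ℂ (evq z) y x hx]
  refine Finset.sum_eq_zero fun w _ => ?_
  show MvPolynomial.eval₂ (evq z) y (q w) * x w = 0
  rw [hT₀ y hy' (q w) (h2 w), zero_mul]

end Pool.Agent.Run7.h792.CA
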