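import Pool.Agent.Run7.h696.CA.Iface

/-!
# Project CA (helper696): the piece VALH

The values of the hyperlogarithms of the words in the letters `none`, `some i` are a character of the shuffle algebra
(generalises `p_VAL` of `Run7/h882/HQ/JV.lean`).
-/

set_option autoImplicit false

open PowerSeries Matrix
open Pool.Agent.Y916.Al

namespace Pool.Agent.Run7.h792.CA

open Pool.Agent.Run7.h696.CP Pool.Agent.Run7.h696.CA

variable {m : ℕ}

theorem abs_co_le (a : Fin m → ℤ) {L : ℝ} (hL : 1 ≤ L) (ha : ∀ i, |(a i : ℝ)| ≤ L)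
    (w : List (Option (Fin m))) : ∀ k, |((co a w k : ℚ) : ℝ)| ≤ L ^ k := by
  induction w with
  | nil =>
    intro k
    rw [co]
    split_ifs with h
    · subst h
      simp
    · rw [Rat.cast_zero, abs_zero]
      positivity
  | cons b w ih =>
    intro k
    cases b with
    | none =>
      rw [co, Rat.cast_div, Rat.cast_natCast, abs_div]
      rcases Nat.eq_zero_or_pos k with rfl | hk
      · simp
      · have h1 : (1 : ℝ) ≤ |(k : ℝ)| := by
          rw [Nat.abs_cast]
          exact_mod_cast hk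
        exact (div_le_self (abs_nonneg _) h1).trans (ih k)
    | some i =>
      rw [co, Rat.cast_div, Rat.cast_natCast, abs_div]
      rcases Nat.eq_zero_or_pos k with rfl | hk
      · simp
      · have h1 : (0 : ℝ) < |(k : ℝ)| := by
          rw [Nat.abs_cast]
          exact_mod_cast hk
        rw [div_le_iff₀ h1, Nat.abs_cast]
        push_cast
        calc |∑ l ∈ Finset.range k, (a i : ℝ) ^ (k - 1 - l) * ((co a w l : ℚ) : ℝ)|
            ≤ ∑ l ∈ Finset.range k, |(a i : ℝ) ^ (k - 1 - l) * ((co a w l : ℚ) : ℝ)| :=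
              Finset.abs_sum_le_sum_abs _ _
          _ ≤ ∑ _l ∈ Finset.range k, L ^ k := Finset.sum_le_sum fun l hl => by
              have hl' := Finset.mem_range.1 hl
              rw [abs_mul, abs_pow]
              calc |(a i : ℝ)| ^ (k - 1 - l) * |((co a w l : ℚ) : ℝ)| ≤ L ^ (k - 1 - l) * L ^ l :=
                    mul_le_mul (pow_le_pow_left₀ (abs_nonneg _) (ha i) _) (ih l) (abs_nonneg _)
                      (by positivity)
                _ = L ^ (k - 1) := by
                    rw [← pow_add]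
                    congr 1
                    omega
                _ ≤ L ^ k := pow_le_pow_right₀ hL (Nat.sub_le k 1)
          _ = L ^ k * (k : ℝ) := by
              rw [Finset.sum_const, Finset.card_range, nsmul_eq_mul, mul_comm]

theorem norm_co_le (a : Fin m → ℤ) {L : ℝ} (hL : 1 ≤ L) (ha : ∀ i, |(a i : ℝ)| ≤ L)
    (w : List (Option (Fin m))) (k : ℕ) : ‖((co a w k : ℚ) : ℂ)‖ ≤ L ^ k := by
  rw [← Complex.ofReal_ratCast, Complex.norm_real, Real.norm_eq_abs]
  exact abs_co_le a hL ha w k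

theorem cvc_hy (a : Fin m → ℤ) {L : ℝ} (hL : 1 ≤ L) (ha : ∀ i, |(a i : ℝ)| ≤ L)
    (w : List (Option (Fin m))) {z : ℂ} (hz : ‖z‖ < 1 / L) : Cvc z (hy a w) := by
  have hL0 : 0 < L := by linarith
  refine Cvc.of_bound (A := 1) (B := L) hL0.le ?_ fun k => ?_
  · rw [lt_div_iff₀ hL0] at hz
    linarith
  · rw [hy, coeff_mk, one_mul]
    exact norm_co_le a hL ha w k

theorem hy_nil (a : Fin m → ℤ) : hy a [] = 1 := by
  ext k
  rw [hy, coeff_mk, coeff_one, co]

theorem evc_list (a : Fin m → ℤ) {L : ℝ} (hL : 1 ≤ L) (ha : ∀ i, |(a i : ℝ)| ≤ L) {z : ℂ}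
    (hz : ‖z‖ < 1 / L) (l : List (List (Option (Fin m)))) :
    Cvc z ((l.map (hy a)).sum) ∧ evc z ((l.map (hy a)).sum) = (l.map fun w => vz z (hy a w)).sum := by
  induction l with
  | nil => exact ⟨Cvc.zero, ev_zero⟩
  | cons b l ih =>
    rw [List.map_cons, List.sum_cons, List.map_cons, List.sum_cons]
    exact ⟨(cvc_hy a hL ha b hz).add ih.1, by rw [(cvc_hy a hL ha b hz).ev_add ih.1, ih.2]; rfl⟩

theorem p_VALH : S_VALH := by
  intro hS m a L hL ha
  refine ⟨abs_co_le a hL ha, fun z hz => ⟨?_, ?_⟩⟩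
  · show vz z (hy a []) = 1
    rw [hy_nil]
    exact ev_one
  · intro u v hu hv
    show vz z (hy a u) * vz z (hy a v) = _
    rw [← (evc_list a hL ha hz _).2, ← (hS m a).mul u v hu hv]
    exact ((cvc_hy a hL ha u hz).ev_mul (cvc_hy a hL ha v hz)).symm

end Pool.Agent.Run7.h792.CA
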